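import Pool.Agent.H42.EntC1

open Pool.Agent.H42.EntCDefs Cardinal

theorem Pool.Agent.Results.MP_360872_lc.Random.result :
    (CovNull → Star) ∧ (CovNull → NonNullSmall → covB < 𝔠 ∧ Star) :=
  ⟨Pool.Agent.H42.EntC1.star, fun h h' =>
    ⟨Pool.Agent.H42.EntC1.covB_lt h', Pool.Agent.H42.EntC1.star h⟩⟩
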